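import Mathlib
import Pool.Agent.H79.TD.Stm3

/-!
# DVQ: the discrete valuation ring `ℤ_(p)` inside `ℚ`
-/

set_option autoImplicit false

namespace Pool.Agent.H75.TD

open Pool.Agent.H79.TD

theorem t_DVQ : S_DVQ := by
  intro p hp
  have hpz : (p : ℤ) ≠ 0 := by exact_mod_cast hp.out.ne_zero
  have hprime : Prime (p : ℤ) := Nat.prime_iff_prime_int.1 hp.out
  have hP : (Ideal.span {(p : ℤ)}).IsPrime := (Ideal.span_singleton_prime hpz).2 hprime
  have hPbot : Ideal.span {(p : ℤ)} ≠ ⊥ := by
    rw [Ne, Ideal.span_singleton_eq_bot]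
    exact hpz
  have hPmax : (Ideal.span {(p : ℤ)}).IsMaximal := hP.isMaximal hPbot
  have hle := Ideal.primeCompl_le_nonZeroDivisors (Ideal.span {(p : ℤ)})
  have hdom : IsDomain (Localization.AtPrime (Ideal.span {(p : ℤ)})) :=
    IsLocalization.isDomain_localization hle
  have hD : IsDiscreteValuationRing (Localization.AtPrime (Ideal.span {(p : ℤ)})) :=
    IsLocalization.AtPrime.isDiscreteValuationRing_of_dedekind_domain ℤ hPbot _
  let alg : Algebra (Localization.AtPrime (Ideal.span {(p : ℤ)})) ℚ :=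
    IsLocalization.localizationAlgebraOfSubmonoidLe (Localization.AtPrime (Ideal.span {(p : ℤ)})) ℚ
      (Ideal.span {(p : ℤ)}).primeCompl (nonZeroDivisors ℤ) hle
  have htow :=
    IsLocalization.localization_isScalarTower_of_submonoid_le
      (Localization.AtPrime (Ideal.span {(p : ℤ)})) ℚ
      (Ideal.span {(p : ℤ)}).primeCompl (nonZeroDivisors ℤ) hle
  have hF : IsFractionRing (Localization.AtPrime (Ideal.span {(p : ℤ)})) ℚ :=
    IsFractionRing.isFractionRing_of_isDomain_of_isLocalization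
      (Ideal.span {(p : ℤ)}).primeCompl (Localization.AtPrime (Ideal.span {(p : ℤ)})) ℚ
  let e : ZMod p ≃+* IsLocalRing.ResidueField (Localization.AtPrime (Ideal.span {(p : ℤ)})) :=
    (Int.quotientSpanNatEquivZMod p).symm.trans
      (IsLocalization.AtPrime.equivQuotMaximalIdeal (Ideal.span {(p : ℤ)})
        (Localization.AtPrime (Ideal.span {(p : ℤ)})))
  have : NeZero p := ⟨hp.out.ne_zero⟩
  refine ⟨Localization.AtPrime (Ideal.span {(p : ℤ)}), inferInstance, hdom, hD, alg, hF,
    Fintype.ofEquiv (ZMod p) e.toEquiv, ?_, ?_⟩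
  · exact charP_of_injective_ringHom (f := (e : ZMod p →+* _)) e.injective p
  · rw [Fintype.ofEquiv_card, ZMod.card]

end Pool.Agent.H75.TD
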